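import Mathlib
import Pool.Agent.W307.LP6

/-!
# The class of lattice path matroids is characterised by a sentence of `MS₀`

The definitions are in `Pool.Agent.W307.LPDefs`.
-/

set_option autoImplicit false

namespace Pool.Agent.Results.MP_b5ca43_co.LatticePathMSO

open Pool.Agent.W307.LP

/-- There is a sentence `φ` of `MS₀` such that a finite matroid satisfies `φ` exactly when it is a
lattice path matroid. -/
theorem result : ∃ φ : Sentence, ∀ (α : Type) (M : Matroid α), M.Finite →
    (Models M φ ↔ IsLatticePathMatroid M) :=
  exists_sentence

end Pool.Agent.Results.MP_b5ca43_co.LatticePathMSO
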